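import Pool.Agent.H17PB.Main

/-!
# MP_7c2736_pr, Q2: disproof

The equivalence of Q2 fails in every dimension `n ≥ 5`: all the measures `μ i` split off
curvature-saturating Gaussian factors in one common direction, but the Poincaré constant of the
barycenter `ν` is larger than in the case of equality; it is larger by any given factor.

Definitions. `E n`, `StronglyLogConcave`, `poincareConst`, `W2sq`, `IsCoupling`, `IsBarycenter`
are those of the starting file `NoPoincareBound` (negative answer to Q1). `SplitsOff κ μ e`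
(`H17PB/Defs.lean`): under `ℝⁿ = ℝ e ⊕ e^⊥` the measure `μ` is the product of the Gaussian measure
with mean `⟪e, m⟫`, `m` the mean of `μ`, and variance `1 / κ`, and of a probability measure on `e^⊥`.
`CommonFactor κ μ`: some unit vector `e` satisfies `SplitsOff (κ i) (μ i) e` for all `i`.
`Setting w κ μ ν`: the hypotheses of Q1 and Q2 (`H17PB/Main.lean`); `rhs w κ = ∑ w i / √(κ i)`.

Proof. Let `μ 1, …, μ N` be `κ`-strongly log-concave on `ℝⁿ⁻¹`, all with the same `κ`, and let `ν` be a
barycenter with a large Poincaré constant (`NoPoincareBound`). Let `γ = N(0, 1 / κ)`. The measures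
`γ ⊗ μ i` are `κ`-strongly log-concave and split off the factor `γ`. The measure `γ ⊗ ν` is a barycenter
of them: `W₂(γ ⊗ ν, γ ⊗ μ i) ≤ W₂(ν, μ i)`, and `W₂(ν', γ ⊗ μ i) ≥ W₂(ν'₂, μ i)` for the projection
`ν'₂` of `ν'` to `ℝⁿ⁻¹`. Its Poincaré constant is at least that of `ν`, as one sees with the test
functions `χ (t / R) f (x)`, `R → ∞`.
-/

set_option autoImplicit false

namespace Pool.Agent.Results.MP_7c2736_pr.SplittingNotEnough

open MeasureTheory
open Pool.Agent.Results.MP_7c2736_pr.NoPoincareBound Pool.Agent.H17PB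
open scoped ENNReal

/-- **Theorem (negative answer to Q2 in all dimensions `n ≥ 5`).** For every `n ≥ 5` and every `C`
there are `N`, weights `w i`, `κ i > 0`, probability measures `μ i` on `ℝⁿ`, `κ i`-strongly
log-concave, all of which split off curvature-saturating Gaussian factors in one direction `e`, and a
barycenter `ν` of them with `√(C_P(ν)) > C ∑ w i / √(κ i)`, for which the equivalence of Q2 fails. -/
theorem result (n : ℕ) (hn : 5 ≤ n) (C : ℝ) :
    ∃ (N : ℕ) (w κ : Fin N → ℝ) (μ : Fin N → Measure (E n)) (ν : Measure (E n)),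
      Setting w κ μ ν ∧ CommonFactor κ μ ∧
      ENNReal.ofReal (C * rhs w κ) < poincareConst ν ^ (1 / 2 : ℝ) ∧
      ¬ (poincareConst ν ^ (1 / 2 : ℝ) = ENNReal.ofReal (rhs w κ) ↔ CommonFactor κ μ) := by
  obtain ⟨N, w, κ, μ, ν, h1, h2, h3, h4, h5, h6, h7, h8, h9⟩ := Pool.Agent.H17PB.main n hn C
  exact ⟨N, w, κ, μ, ν, ⟨h1, h2, h3, h4, h5, h6⟩, h7, h9, fun h => h8 (h.2 h7)⟩

end Pool.Agent.Results.MP_7c2736_pr.SplittingNotEnough
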